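import Pool.Agent.K9h35.GL.Par

/-!
# The tree of `GL_2` over a field with a discrete valuation
-/

set_option autoImplicit false

namespace Pool.Agent.K9h35.GL

open WithZero
open Matrix hiding exp_neg exp_zsmul

section

variable {F : Type} [Field F] (v : Valuation F ℤᵐ⁰)

/-- all entries are at most `exp k`, and the determinant has the value `exp (2 k + e)` -/
def Sz (e : ℤ) (M : Matrix (Fin 2) (Fin 2) F) : Prop :=
  ∃ k : ℤ, (∀ i j, v (M i j) ≤ exp k) ∧ v M.det = exp (2 * k + e)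

theorem Sz.mul {e e' : ℤ} {M N : Matrix (Fin 2) (Fin 2) F} (hM : Sz v e M) (hN : Sz v e' N) :
    Sz v (e + e') (M * N) := by
  obtain ⟨k, h1, h2⟩ := hM
  obtain ⟨l, h3, h4⟩ := hN
  refine ⟨k + l, fun i j => ?_, ?_⟩
  · rw [Matrix.mul_apply, Fin.sum_univ_two]
    refine v.map_add_le ?_ ?_
    · rw [map_mul, exp_add]; exact mul_le_mul' (h1 _ _) (h3 _ _)
    · rw [map_mul, exp_add]; exact mul_le_mul' (h1 _ _) (h3 _ _)
  · rw [Matrix.det_mul, map_mul, h2, h4, ← exp_add]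
    congr 1; ring

theorem Sz.one : Sz v 0 (1 : Matrix (Fin 2) (Fin 2) F) := by
  refine ⟨0, fun i j => ?_, by simp⟩
  fin_cases i <;> fin_cases j <;> simp

theorem Sz.inv {e : ℤ} {g : GL (Fin 2) F} (hg : Sz v e (g : Matrix (Fin 2) (Fin 2) F)) :
    Sz v e ((g⁻¹ : GL (Fin 2) F) : Matrix (Fin 2) (Fin 2) F) := by
  obtain ⟨k, h1, h2⟩ := hg
  have hd : (g : Matrix (Fin 2) (Fin 2) F).det ≠ 0 := by
    intro h; rw [h, map_zero] at h2; exact (exp_ne_zero h2.symm).elim
  have e1 : ((g⁻¹ : GL (Fin 2) F) : Matrix (Fin 2) (Fin 2) F) =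
      ((g : Matrix (Fin 2) (Fin 2) F).det)⁻¹ • (g : Matrix (Fin 2) (Fin 2) F).adjugate := by
    rw [Matrix.coe_units_inv, Matrix.inv_def, Ring.inverse_eq_inv']
  have hdi : v ((g : Matrix (Fin 2) (Fin 2) F).det)⁻¹ = exp (-(2 * k + e)) := by
    rw [map_inv₀, h2, exp_neg]
  refine ⟨-k - e, fun i j => ?_, ?_⟩
  · rw [e1, Matrix.smul_apply, smul_eq_mul, map_mul, hdi, Matrix.adjugate_fin_two]
    have e2 : exp (-k - e) = exp (-(2 * k + e)) * exp k := by
      rw [← exp_add]; congr 1; ring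
    rw [e2]
    refine mul_le_mul' le_rfl ?_
    fin_cases i <;> fin_cases j <;> simp [h1]
  · rw [Matrix.coe_units_inv, Matrix.det_nonsing_inv, Ring.inverse_eq_inv', hdi]
    congr 1; ring

/-- the stabilizer of the standard vertex -/
def HH : Subgroup (GL (Fin 2) F) where
  carrier := {g | Sz v 0 (g : Matrix (Fin 2) (Fin 2) F)}
  one_mem' := by simpa using Sz.one v
  mul_mem' := by
    intro a b ha hb
    have := Sz.mul v ha hb
    simpa using this
  inv_mem' := by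
    intro a ha
    exact Sz.inv v ha

theorem mem_HH (g : GL (Fin 2) F) : g ∈ HH v ↔ Sz v 0 (g : Matrix (Fin 2) (Fin 2) F) := Iff.rfl

/-- the vertices of the tree -/
abbrev Vt : Type := GL (Fin 2) F ⧸ HH v

/-- the relation of adjacency on representatives -/
def Nb (g h : GL (Fin 2) F) : Prop := Sz v (-1) ((g⁻¹ * h : GL (Fin 2) F) : Matrix (Fin 2) (Fin 2) F)

theorem Nb.congr {g g' h h' : GL (Fin 2) F} (hg : (g : Vt v) = g') (hh : (h : Vt v) = h')
    (hn : Nb v g h) : Nb v g' h' := by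
  have h1 : g⁻¹ * g' ∈ HH v := QuotientGroup.eq.1 hg
  have h2 : h⁻¹ * h' ∈ HH v := QuotientGroup.eq.1 hh
  have h3 := (Sz.inv v h1)
  have e : g'⁻¹ * h' = (g⁻¹ * g')⁻¹ * (g⁻¹ * h) * (h⁻¹ * h') := by group
  unfold Nb
  rw [e]
  have h4 := Sz.mul v (Sz.mul v h3 hn) h2
  rw [← Units.val_mul, ← Units.val_mul] at h4
  simpa only [zero_add, add_zero] using h4

/-- the tree -/
def tree : SimpleGraph (Vt v) where
  Adj x y := ∃ g h : GL (Fin 2) F, (g : Vt v) = x ∧ (h : Vt v) = y ∧ Nb v g h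
  symm := ⟨by
    rintro x y ⟨g, h, rfl, rfl, hn⟩
    refine ⟨h, g, rfl, rfl, ?_⟩
    have := Sz.inv v hn
    unfold Nb
    have e : h⁻¹ * g = (g⁻¹ * h)⁻¹ := by group
    rw [e]
    exact this⟩
  loopless := ⟨by
    rintro x ⟨g, h, rfl, hh, hn⟩
    have h1 : Nb v g g := Nb.congr v rfl hh hn
    unfold Nb at h1
    rw [inv_mul_cancel] at h1
    obtain ⟨k, -, h2⟩ := h1
    have h3 : exp (0 : ℤ) = exp (2 * k + -1) := by simpa using h2
    have h4 : (0 : ℤ) = 2 * k + -1 := exp_injective h3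
    omega⟩

theorem adj_iff (g h : GL (Fin 2) F) : (tree v).Adj (g : Vt v) (h : Vt v) ↔ Nb v g h := by
  constructor
  · rintro ⟨g', h', hg, hh, hn⟩
    exact Nb.congr v hg hh hn
  · intro hn
    exact ⟨g, h, rfl, rfl, hn⟩

theorem tree_act (γ : GL (Fin 2) F) (x y : Vt v) (h : (tree v).Adj x y) :
    (tree v).Adj (γ • x) (γ • y) := by
  obtain ⟨g, h, rfl, rfl, hn⟩ := h
  refine ⟨γ * g, γ * h, rfl, rfl, ?_⟩
  unfold Nb at hn ⊢
  have e : (γ * g)⁻¹ * (γ * h) = g⁻¹ * h := by group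
  rw [e]
  exact hn

/-! ### the standard form of the vertices -/

variable {v} {π : F}

theorem pi_ne (hπ : v π = exp (-1)) : π ≠ 0 := by
  rintro rfl
  rw [map_zero] at hπ
  exact exp_ne_zero hπ.symm

theorem v_zpow (hπ : v π = exp (-1)) (n : ℤ) : v (π ^ n) = exp (-n) := by
  rw [map_zpow₀, hπ, ← exp_zsmul]
  congr 1
  simp

/-- the matrix `(π^n, a; 0, 1)` -/
noncomputable def uu (hπ : v π = exp (-1)) (a : F) (n : ℤ) : GL (Fin 2) F :=
  GeneralLinearGroup.mkOfDetNeZero !![π ^ n, a; 0, 1] (by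
    rw [Matrix.det_fin_two_of]; simpa using zpow_ne_zero n (pi_ne hπ))

theorem uu_val (hπ : v π = exp (-1)) (a : F) (n : ℤ) :
    ((uu hπ a n : GL (Fin 2) F) : Matrix (Fin 2) (Fin 2) F) = !![π ^ n, a; 0, 1] := rfl

theorem uu_inv (hπ : v π = exp (-1)) (a : F) (n : ℤ) :
    (((uu hπ a n)⁻¹ : GL (Fin 2) F) : Matrix (Fin 2) (Fin 2) F) = !![π ^ (-n), -(π ^ (-n) * a); 0, 1] := by
  have hp := pi_ne hπ
  have h1 : (!![π ^ (-n), -(π ^ (-n) * a); 0, 1] : Matrix (Fin 2) (Fin 2) F) * !![π ^ n, a; 0, 1] = 1 := by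
    have e : π ^ (-n) * π ^ n = 1 := by rw [← zpow_add₀ hp]; simp
    rw [Matrix.mul_fin_two, Matrix.one_fin_two, e]
    simp
  rw [Matrix.coe_units_inv, uu_val]
  exact Matrix.inv_eq_left_inv h1

theorem uu_quot (hπ : v π = exp (-1)) (a b : F) (n m : ℤ) :
    (((uu hπ a n)⁻¹ * uu hπ b m : GL (Fin 2) F) : Matrix (Fin 2) (Fin 2) F) =
      !![π ^ (m - n), π ^ (-n) * (b - a); 0, 1] := by
  have hp := pi_ne hπ
  rw [Units.val_mul, uu_inv, uu_val, Matrix.mul_fin_two]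
  have e : π ^ (-n) * π ^ m = π ^ (m - n) := by rw [← zpow_add₀ hp]; congr 1; ring
  rw [e]
  congr 1
  simp
  ring

theorem sz_uu (hπ : v π = exp (-1)) (e : ℤ) (a b : F) (n m : ℤ) :
    Sz v e (((uu hπ a n)⁻¹ * uu hπ b m : GL (Fin 2) F) : Matrix (Fin 2) (Fin 2) F) ↔
      ∃ k : ℤ, n - m ≤ k ∧ 0 ≤ k ∧ v (b - a) ≤ exp (k - n) ∧ n - m = 2 * k + e := by
  rw [uu_quot]
  have h1 : v (π ^ (m - n)) = exp (n - m) := by rw [v_zpow hπ]; congr 1; ring
  have h2 : ∀ k : ℤ, v (π ^ (-n) * (b - a)) ≤ exp k ↔ v (b - a) ≤ exp (k - n) := by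
    intro k
    rw [map_mul, v_zpow hπ, neg_neg]
    have e3 : exp k = exp n * exp (k - n) := by rw [← exp_add]; congr 1; ring
    rw [e3]
    exact mul_le_mul_iff_right₀ exp_pos
  constructor
  · rintro ⟨k, h3, h4⟩
    refine ⟨k, ?_, ?_, ?_, ?_⟩
    · have := h3 0 0
      simp only [Matrix.of_apply, Matrix.cons_val', Matrix.cons_val_zero] at this
      rw [h1] at this
      exact exp_le_exp.1 this
    · have := h3 1 1
      simp only [Matrix.of_apply, Matrix.cons_val', Matrix.cons_val_one, Matrix.cons_val_fin_one, map_one] at this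
      rw [← exp_zero] at this
      exact exp_le_exp.1 this
    · have := h3 0 1
      simp only [Matrix.of_apply, Matrix.cons_val', Matrix.cons_val_one, Matrix.cons_val_zero,
        Matrix.cons_val_fin_one] at this
      exact (h2 k).1 this
    · rw [Matrix.det_fin_two_of] at h4
      simp only [mul_one, mul_zero, sub_zero] at h4
      rw [h1] at h4
      exact exp_injective h4
  · rintro ⟨k, h3, h4, h5, h6⟩
    refine ⟨k, fun i j => ?_, ?_⟩
    · fin_cases i <;> fin_cases j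
      · show v (π ^ (m - n)) ≤ exp k
        rw [h1]
        exact exp_le_exp.2 h3
      · simpa using (h2 k).2 h5
      · simp
      · simpa [← exp_zero] using h4
    · rw [Matrix.det_fin_two_of]
      simp only [mul_one, mul_zero, sub_zero]
      rw [h1, h6]

end

end Pool.Agent.K9h35.GL
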