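import Pool.Agent.K9h35.GL.BT

/-!
# The tree of `GL_2` over a field with a discrete valuation is a tree
-/

set_option autoImplicit false

namespace Pool.Agent.K9h35.GL

open WithZero
open Matrix hiding exp_neg exp_zsmul

variable {F : Type} [Field F] {v : Valuation F ℤᵐ⁰} {π : F}

theorem val_exp {x : F} (hx : x ≠ 0) : ∃ k : ℤ, v x = exp k :=
  ⟨log (v x), (exp_log ((Valuation.ne_zero_iff v).2 hx)).symm⟩

theorem iwasawa (hπ : v π = exp (-1)) (g : GL (Fin 2) F) :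
    ∃ (a : F) (n : ℤ), Sz v 0 (((uu hπ a n)⁻¹ * g : GL (Fin 2) F) : Matrix (Fin 2) (Fin 2) F) := by
  obtain ⟨M, hM⟩ : ∃ M : Matrix (Fin 2) (Fin 2) F, M = (g : Matrix (Fin 2) (Fin 2) F) := ⟨_, rfl⟩
  have hd0 : M.det ≠ 0 := by
    rw [hM]
    exact ((Matrix.isUnit_iff_isUnit_det _).1 g.isUnit).ne_zero
  have hdet : M.det = M 0 0 * M 1 1 - M 0 1 * M 1 0 := Matrix.det_fin_two M
  obtain ⟨d, hd⟩ := val_exp (v := v) hd0
  have key : ∀ (a : F) (n : ℤ), (((uu hπ a n)⁻¹ * g : GL (Fin 2) F) : Matrix (Fin 2) (Fin 2) F) =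
      !![π ^ (-n) * (M 0 0 - a * M 1 0), π ^ (-n) * (M 0 1 - a * M 1 1); M 1 0, M 1 1] := by
    intro a n
    rw [Units.val_mul, uu_inv, ← hM]
    ext i j
    fin_cases i <;> fin_cases j <;> simp [Matrix.mul_apply, Fin.sum_univ_two] <;> ring
  have hdk : ∀ (a : F) (n : ℤ), v ((((uu hπ a n)⁻¹ * g : GL (Fin 2) F) :
      Matrix (Fin 2) (Fin 2) F)).det = exp (n + d) := by
    intro a n
    rw [Units.val_mul, Matrix.det_mul, ← hM, map_mul, hd, uu_inv, Matrix.det_fin_two_of]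
    simp only [mul_one, mul_zero, sub_zero]
    rw [v_zpow hπ, neg_neg, exp_add]
  by_cases hle : v (M 1 0) ≤ v (M 1 1)
  · have hs : M 1 1 ≠ 0 := by
      intro h
      rw [h, map_zero] at hle
      have h1 : v (M 1 0) = 0 := le_antisymm hle (zero_le)
      have h2 : M 1 0 = 0 := (Valuation.zero_iff v).1 h1
      apply hd0
      rw [hdet, h, h2]; ring
    obtain ⟨k, hk⟩ := val_exp (v := v) hs
    refine ⟨M 0 1 / M 1 1, 2 * k - d, k, fun i j => ?_, ?_⟩
    · rw [key]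
      fin_cases i <;> fin_cases j
      · show v (π ^ (-(2 * k - d)) * (M 0 0 - M 0 1 / M 1 1 * M 1 0)) ≤ exp k
        have e1 : M 0 0 - M 0 1 / M 1 1 * M 1 0 = M.det / M 1 1 := by
          rw [hdet]; field_simp
        rw [e1, map_mul, v_zpow hπ, map_div₀, hd, hk, ← exp_sub, ← exp_add]
        apply exp_le_exp.2
        omega
      · show v (π ^ (-(2 * k - d)) * (M 0 1 - M 0 1 / M 1 1 * M 1 1)) ≤ exp k
        rw [div_mul_cancel₀ _ hs, sub_self, mul_zero, map_zero]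
        exact zero_le
      · exact hle.trans hk.le
      · exact hk.le
    · rw [hdk]
      congr 1
      ring
  · have hlt : v (M 1 1) < v (M 1 0) := not_le.1 hle
    have hr : M 1 0 ≠ 0 := by
      intro h
      rw [h, map_zero] at hlt
      exact not_lt_zero hlt
    obtain ⟨k, hk⟩ := val_exp (v := v) hr
    refine ⟨M 0 0 / M 1 0, 2 * k - d, k, fun i j => ?_, ?_⟩
    · rw [key]
      fin_cases i <;> fin_cases j
      · show v (π ^ (-(2 * k - d)) * (M 0 0 - M 0 0 / M 1 0 * M 1 0)) ≤ exp k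
        rw [div_mul_cancel₀ _ hr, sub_self, mul_zero, map_zero]
        exact zero_le
      · show v (π ^ (-(2 * k - d)) * (M 0 1 - M 0 0 / M 1 0 * M 1 1)) ≤ exp k
        have e1 : M 0 1 - M 0 0 / M 1 0 * M 1 1 = -(M.det / M 1 0) := by
          rw [hdet]; field_simp; ring
        rw [e1, map_mul, v_zpow hπ, Valuation.map_neg, map_div₀, hd, hk, ← exp_sub, ← exp_add]
        apply exp_le_exp.2
        omega
      · exact hk.le
      · exact hlt.le.trans hk.le
    · rw [hdk]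
      congr 1
      ring

/-- the vertex of the ball with centre `a` and radius `|π^n|` -/
noncomputable def ww (hπ : v π = exp (-1)) (a : F) (n : ℤ) : Vt v := (uu hπ a n : GL (Fin 2) F)

theorem ww_surj (hπ : v π = exp (-1)) (x : Vt v) : ∃ (a : F) (n : ℤ), x = ww hπ a n := by
  induction x using QuotientGroup.induction_on with
  | H g =>
    obtain ⟨a, n, h⟩ := iwasawa hπ g
    exact ⟨a, n, (QuotientGroup.eq.2 h).symm⟩

theorem ww_eq (hπ : v π = exp (-1)) (a b : F) (n m : ℤ) :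
    ww hπ a n = ww hπ b m ↔ m = n ∧ v (b - a) ≤ exp (-n) := by
  have h1 : ww hπ a n = ww hπ b m ↔
      Sz v 0 (((uu hπ a n)⁻¹ * uu hπ b m : GL (Fin 2) F) : Matrix (Fin 2) (Fin 2) F) :=
    QuotientGroup.eq
  rw [h1, sz_uu]
  constructor
  · rintro ⟨k, h2, h3, h4, h5⟩
    obtain rfl : k = 0 := by omega
    refine ⟨by omega, ?_⟩
    simpa using h4
  · rintro ⟨rfl, h⟩
    exact ⟨0, by omega, le_rfl, by simpa using h, by omega⟩

theorem ww_adj (hπ : v π = exp (-1)) (a b : F) (n m : ℤ) :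
    (tree v).Adj (ww hπ a n) (ww hπ b m) ↔
      (m = n - 1 ∧ v (b - a) ≤ exp (-m)) ∨ (n = m - 1 ∧ v (a - b) ≤ exp (-n)) := by
  have h1 : (tree v).Adj (ww hπ a n) (ww hπ b m) ↔
      Sz v (-1) (((uu hπ a n)⁻¹ * uu hπ b m : GL (Fin 2) F) : Matrix (Fin 2) (Fin 2) F) :=
    adj_iff v _ _
  rw [h1, sz_uu]
  constructor
  · rintro ⟨k, h2, h3, h4, h5⟩
    have hk : k = 0 ∨ k = 1 := by omega
    rcases hk with rfl | rfl
    · right
      refine ⟨by omega, ?_⟩
      rw [Valuation.map_sub_swap]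
      simpa using h4
    · left
      refine ⟨by omega, ?_⟩
      have e : -m = 1 - n := by omega
      rw [e]
      exact h4
  · rintro (⟨rfl, h⟩ | ⟨rfl, h⟩)
    · refine ⟨1, by omega, by omega, ?_, by omega⟩
      have e : 1 - n = -(n - 1) := by ring
      rw [e]
      exact h
    · refine ⟨0, by omega, le_rfl, ?_, by omega⟩
      rw [Valuation.map_sub_swap, zero_sub]
      exact h

theorem tree_isTree (hπ : v π = exp (-1)) : (tree v).IsTree := by
  choose ca cn hc using fun x : Vt v => ww_surj hπ x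
  have hp : ∀ a n, ww hπ (ca (ww hπ a n)) (cn (ww hπ a n) - 1) = ww hπ a (n - 1) ∧
      cn (ww hπ a n) = n := by
    intro a n
    have h1 := hc (ww hπ a n)
    obtain ⟨h2, h3⟩ := (ww_eq hπ _ _ _ _).1 h1
    refine ⟨?_, h2⟩
    rw [h2]
    refine ((ww_eq hπ _ _ _ _).2 ⟨rfl, ?_⟩).symm
    refine h3.trans (exp_le_exp.2 ?_)
    omega
  have hpn : ∀ (k : ℕ) (a : F) (n : ℤ),
      (fun x => ww hπ (ca x) (cn x - 1))^[k] (ww hπ a n) = ww hπ a (n - k) := by
    intro k
    induction k with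
    | zero => intro a n; simp
    | succ k ih =>
      intro a n
      rw [Function.iterate_succ_apply, (hp a n).1, ih]
      congr 1
      push_cast
      ring
  refine isTree_of_parent (tree v) (fun x => ww hπ (ca x) (cn x - 1)) cn ?_ ?_ ?_
  · intro x y
    obtain ⟨a, n, rfl⟩ := ww_surj hπ x
    obtain ⟨b, m, rfl⟩ := ww_surj hπ y
    beta_reduce
    rw [(hp a n).1, (hp b m).1, ww_adj, ww_eq, ww_eq]
    constructor
    · rintro (⟨rfl, h⟩ | ⟨rfl, h⟩)
      · exact Or.inl ⟨rfl, h⟩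
      · exact Or.inr ⟨rfl, h⟩
    · rintro (⟨rfl, h⟩ | ⟨rfl, h⟩)
      · exact Or.inl ⟨rfl, h⟩
      · exact Or.inr ⟨rfl, h⟩
  · intro x
    obtain ⟨a, n, rfl⟩ := ww_surj hπ x
    beta_reduce
    rw [(hp a n).1, (hp a (n - 1)).2, (hp a n).2]
  · intro x y
    obtain ⟨a, n, rfl⟩ := ww_surj hπ x
    obtain ⟨b, m, rfl⟩ := ww_surj hπ y
    obtain ⟨t, ht⟩ : ∃ t : ℤ, v (b - a) ≤ exp t := by
      by_cases hab : b - a = 0
      · exact ⟨0, by rw [hab, map_zero]; exact zero_le⟩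
      · obtain ⟨k, hk⟩ := val_exp (v := v) hab
        exact ⟨k, hk.le⟩
    obtain ⟨N, hN1, hN2, hN3⟩ : ∃ N : ℤ, N ≤ n ∧ N ≤ m ∧ N ≤ -t :=
      ⟨min n (min m (-t)), min_le_left _ _, (min_le_right _ _).trans (min_le_left _ _),
        (min_le_right _ _).trans (min_le_right _ _)⟩
    refine ⟨(n - N).toNat, (m - N).toNat, ?_⟩
    rw [hpn, hpn, Int.toNat_of_nonneg (by omega), Int.toNat_of_nonneg (by omega)]
    refine (ww_eq hπ _ _ _ _).2 ⟨by ring, ht.trans (exp_le_exp.2 (by omega))⟩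

end Pool.Agent.K9h35.GL
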