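import Pool.Agent.K9h35.GL.Poly
import Pool.Agent.Helper460_OutF.Sanov
import Pool.Agent.Y179.SS.Free

/-!
# Coefficients: the integers and algebraic extensions of finite fields
-/

set_option autoImplicit false

namespace Pool.Agent.K9h35.GL

open Pool.Agent.Y110.FJ
open scoped MatrixGroups

/-- algebraic extensions of a finite field -/
theorem gl_alg {C : ∀ (G : Type) [Group G], Prop} (hC : ClosedE C)
    (k K : Type) [Field k] [Field K] [Finite k] [Algebra k K] [Algebra.IsAlgebraic k K] :
    C (GL (Fin 2) K) := by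
  classical
  refine union_step hC (Finset K) (fun i j => ⟨i ∪ j, Finset.subset_union_left, Finset.subset_union_right⟩)
    (fun s => (IntermediateField.adjoin k (s : Set K)).toSubring)
    (fun s t h => IntermediateField.adjoin.mono k _ _ (by exact_mod_cast h)) (fun r => ⟨{r}, ?_⟩) fun s => ?_
  · exact IntermediateField.subset_adjoin k _ (by simp)
  · have h1 : FiniteDimensional k (IntermediateField.adjoin k (s : Set K)) :=
      IntermediateField.finiteDimensional_adjoin fun x _ => Algebra.IsIntegral.isIntegral x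
    have h2 : Finite (IntermediateField.adjoin k (s : Set K)) := Module.finite_of_finite k
    have h3 : Finite ↥(IntermediateField.adjoin k (s : Set K)).toSubring := h2
    exact Pool.Agent.Y430.SS.of_finite hC.base _ inferInstance

section Sanov

open Pool.Agent.Helper460_OutF

theorem saA_mem : saA ∈ sanov.range := ⟨FreeGroup.of 0, by simp [sanov]⟩

theorem saB_mem : saB ∈ sanov.range := ⟨FreeGroup.of 1, by simp [sanov]⟩

theorem saA_zpow (k : ℤ) : ((saA ^ k : SL(2, ℤ)) : Matrix (Fin 2) (Fin 2) ℤ) = !![1, 2 * k; 0, 1] := by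
  induction k using Int.induction_on with
  | zero => ext i j; fin_cases i <;> fin_cases j <;> simp
  | succ i ih =>
    rw [zpow_add_one, Matrix.SpecialLinearGroup.coe_mul, ih]
    ext i j; fin_cases i <;> fin_cases j <;> simp [saA, Matrix.mul_apply, Fin.sum_univ_two]
    ring
  | pred i ih =>
    have h0 : ((saA⁻¹ : SL(2, ℤ)) : Matrix (Fin 2) (Fin 2) ℤ) = !![1, -2; 0, 1] := by
      rw [Matrix.SpecialLinearGroup.coe_inv]
      simp [saA, Matrix.adjugate_fin_two]
    rw [zpow_sub_one, Matrix.SpecialLinearGroup.coe_mul, ih, h0]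
    ext i j; fin_cases i <;> fin_cases j <;> simp [Matrix.mul_apply, Fin.sum_univ_two]
    ring

theorem saB_zpow (k : ℤ) : ((saB ^ k : SL(2, ℤ)) : Matrix (Fin 2) (Fin 2) ℤ) = !![1, 0; 2 * k, 1] := by
  induction k using Int.induction_on with
  | zero => ext i j; fin_cases i <;> fin_cases j <;> simp
  | succ i ih =>
    rw [zpow_add_one, Matrix.SpecialLinearGroup.coe_mul, ih]
    ext i j; fin_cases i <;> fin_cases j <;> simp [saB, Matrix.mul_apply, Fin.sum_univ_two]
    ring
  | pred i ih =>
    have h0 : ((saB⁻¹ : SL(2, ℤ)) : Matrix (Fin 2) (Fin 2) ℤ) = !![1, 0; -2, 1] := by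
      rw [Matrix.SpecialLinearGroup.coe_inv]
      simp [saB, Matrix.adjugate_fin_two]
    rw [zpow_sub_one, Matrix.SpecialLinearGroup.coe_mul, ih, h0]
    ext i j; fin_cases i <;> fin_cases j <;> simp [Matrix.mul_apply, Fin.sum_univ_two]
    ring

/-- the elements of the subgroup of Sanov -/
theorem sanov_range (n : ℕ) : ∀ g : SL(2, ℤ), (g.1 0 0).natAbs + (g.1 1 0).natAbs ≤ n →
    g.1 0 0 % 4 = 1 → g.1 1 1 % 4 = 1 → g.1 0 1 % 2 = 0 → g.1 1 0 % 2 = 0 → g ∈ sanov.range := by
  induction n with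
  | zero =>
    intro g hn h1 _ _ _
    omega
  | succ n ih =>
    intro g hn ha hd hb hc
    have hdet : g.1 0 0 * g.1 1 1 - g.1 0 1 * g.1 1 0 = 1 := by
      have := g.2
      rwa [Matrix.det_fin_two] at this
    have hA : ∀ k : ℤ, (saA ^ k * g).1 0 0 = g.1 0 0 + 2 * k * g.1 1 0 ∧
        (saA ^ k * g).1 0 1 = g.1 0 1 + 2 * k * g.1 1 1 ∧ (saA ^ k * g).1 1 0 = g.1 1 0 ∧
        (saA ^ k * g).1 1 1 = g.1 1 1 := by
      intro k
      have h := saA_zpow k
      refine ⟨?_, ?_, ?_, ?_⟩ <;>
      · rw [Matrix.SpecialLinearGroup.coe_mul, Matrix.mul_apply, Fin.sum_univ_two, h]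
        simp
    have hB : ∀ k : ℤ, (saB ^ k * g).1 0 0 = g.1 0 0 ∧
        (saB ^ k * g).1 0 1 = g.1 0 1 ∧ (saB ^ k * g).1 1 0 = 2 * k * g.1 0 0 + g.1 1 0 ∧
        (saB ^ k * g).1 1 1 = 2 * k * g.1 0 1 + g.1 1 1 := by
      intro k
      have h := saB_zpow k
      refine ⟨?_, ?_, ?_, ?_⟩ <;>
      · rw [Matrix.SpecialLinearGroup.coe_mul, Matrix.mul_apply, Fin.sum_univ_two, h]
        simp
    have hbackA : ∀ k : ℤ, saA ^ k * g ∈ sanov.range → g ∈ sanov.range := by
      intro k hk
      have := mul_mem (inv_mem (zpow_mem saA_mem k)) hk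
      rwa [inv_mul_cancel_left] at this
    have hbackB : ∀ k : ℤ, saB ^ k * g ∈ sanov.range → g ∈ sanov.range := by
      intro k hk
      have := mul_mem (inv_mem (zpow_mem saB_mem k)) hk
      rwa [inv_mul_cancel_left] at this
    by_cases hc0 : g.1 1 0 = 0
    · -- upper triangular
      rw [hc0, mul_zero, sub_zero] at hdet
      have h1 : g.1 0 0 = 1 := by
        rcases Int.isUnit_iff.1 (IsUnit.of_mul_eq_one _ hdet) with h | h
        · exact h
        · omega
      have h2 : g.1 1 1 = 1 := by rw [h1, one_mul] at hdet; exact hdet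
      obtain ⟨k, hk⟩ : ∃ k, g.1 0 1 = 2 * k := ⟨g.1 0 1 / 2, by omega⟩
      refine hbackA (-k) ?_
      have h3 : saA ^ (-k) * g = 1 := by
        obtain ⟨e1, e2, e3, e4⟩ := hA (-k)
        refine Subtype.ext (Matrix.ext fun i j => ?_)
        fin_cases i <;> fin_cases j
        · change (saA ^ (-k) * g).1 0 0 = 1
          rw [e1, hc0, h1]; ring
        · change (saA ^ (-k) * g).1 0 1 = 0
          rw [e2, h2, hk]; ring
        · change (saA ^ (-k) * g).1 1 0 = 0
          rw [e3, hc0]
        · change (saA ^ (-k) * g).1 1 1 = 1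
          rw [e4, h2]
      rw [h3]
      exact one_mem _
    · rcases lt_or_ge (g.1 1 0).natAbs (g.1 0 0).natAbs with hlt | hge
      · -- reduce the first entry
        obtain ⟨k, hk1, hk2⟩ : ∃ k : ℤ, (k = 1 ∨ k = -1) ∧
            (g.1 0 0 + 2 * k * g.1 1 0).natAbs < (g.1 0 0).natAbs := by
          by_cases hs : 0 < g.1 0 0 ↔ 0 < g.1 1 0
          · exact ⟨-1, Or.inr rfl, by omega⟩
          · exact ⟨1, Or.inl rfl, by omega⟩
        obtain ⟨e1, e2, e3, e4⟩ := hA k
        refine hbackA k (ih _ ?_ ?_ ?_ ?_ ?_)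
        · rw [e1, e3]; omega
        · rw [e1]; rcases hk1 with rfl | rfl <;> omega
        · rw [e4]; exact hd
        · rw [e2]; rcases hk1 with rfl | rfl <;> omega
        · rw [e3]; exact hc
      · have hne : (g.1 1 0).natAbs ≠ (g.1 0 0).natAbs := by omega
        obtain ⟨k, hk1, hk2⟩ : ∃ k : ℤ, (k = 1 ∨ k = -1) ∧
            (2 * k * g.1 0 0 + g.1 1 0).natAbs < (g.1 1 0).natAbs := by
          by_cases hs : 0 < g.1 0 0 ↔ 0 < g.1 1 0
          · exact ⟨-1, Or.inr rfl, by omega⟩
          · exact ⟨1, Or.inl rfl, by omega⟩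
        obtain ⟨e1, e2, e3, e4⟩ := hB k
        refine hbackB k (ih _ ?_ ?_ ?_ ?_ ?_)
        · rw [e1, e3]; omega
        · rw [e1]; exact ha
        · rw [e4]; rcases hk1 with rfl | rfl <;> omega
        · rw [e2]; exact hb
        · rw [e3]; rcases hk1 with rfl | rfl <;> omega

/-- `GL_2` of the integers -/
theorem gl_int {C : ∀ (G : Type) [Group G], Prop} (hC : ClosedE C) : C (GL (Fin 2) ℤ) := by
  have hF : C sanov.range :=
    hC.base.of_injective _ _ (MonoidHom.ofInjective sanov_injective).symm.toMonoidHom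
      (MonoidHom.ofInjective sanov_injective).symm.injective (Pool.Agent.Y179.SS.free_fin hC.base _)
  let φ : GL (Fin 2) ℤ →* GL (Fin 2) (ZMod 4) := Matrix.GeneralLinearGroup.map (Int.castRingHom (ZMod 4))
  have hfin : φ.ker.FiniteIndex := by
    have : Finite (GL (Fin 2) (ZMod 4)) := inferInstance
    exact Subgroup.finiteIndex_ker φ
  refine hC.base.finiteIndex _ φ.ker hfin ?_
  have hcast : ∀ g : φ.ker, ∀ j k, ((g.1.1 j k : ℤ) : ZMod 4) = (1 : Matrix (Fin 2) (Fin 2) (ZMod 4)) j k := by
    intro g j k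
    have h := g.2
    rw [MonoidHom.mem_ker] at h
    exact congrArg (fun g : GL (Fin 2) (ZMod 4) => g.1 j k) h
  have h00 : ∀ g : φ.ker, g.1.1 0 0 % 4 = 1 := by
    intro g
    have h := hcast g 0 0
    rw [Matrix.one_apply_eq, ← Int.cast_one, ZMod.intCast_eq_intCast_iff] at h
    exact h
  have h11 : ∀ g : φ.ker, g.1.1 1 1 % 4 = 1 := by
    intro g
    have h := hcast g 1 1
    rw [Matrix.one_apply_eq, ← Int.cast_one, ZMod.intCast_eq_intCast_iff] at h
    exact h
  have h01 : ∀ g : φ.ker, g.1.1 0 1 % 4 = 0 := by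
    intro g
    have h := hcast g 0 1
    rw [Matrix.one_apply_ne (by decide), ← Int.cast_zero, ZMod.intCast_eq_intCast_iff] at h
    exact h
  have h10 : ∀ g : φ.ker, g.1.1 1 0 % 4 = 0 := by
    intro g
    have h := hcast g 1 0
    rw [Matrix.one_apply_ne (by decide), ← Int.cast_zero, ZMod.intCast_eq_intCast_iff] at h
    exact h
  have hdet : ∀ g : φ.ker, g.1.1.det = 1 := by
    intro g
    have h1 : IsUnit g.1.1.det := (Matrix.isUnit_iff_isUnit_det _).1 g.1.isUnit
    rcases Int.isUnit_iff.1 h1 with h | h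
    · exact h
    · exfalso
      rw [Matrix.det_fin_two] at h
      have a := h00 g
      have b := h11 g
      have c := h01 g
      have d := h10 g
      have e : (g.1.1 0 0 * g.1.1 1 1 - g.1.1 0 1 * g.1.1 1 0) % 4 = 1 := by
        rw [Int.sub_emod, Int.mul_emod, a, b, Int.mul_emod (g.1.1 0 1), c, d]
        norm_num
      rw [h] at e
      norm_num at e
  let ψ : φ.ker →* sanov.range :=
    { toFun := fun g => ⟨⟨g.1.1, hdet g⟩, sanov_range _ _ le_rfl (h00 g) (h11 g)
        (by have := h01 g; change g.1.1 0 1 % 2 = 0; omega) (by have := h10 g; change g.1.1 1 0 % 2 = 0; omega)⟩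
      map_one' := rfl
      map_mul' := fun _ _ => rfl }
  refine hC.base.of_injective _ _ ψ (fun g h hgh => ?_) hF
  refine Subtype.ext (Units.ext ?_)
  exact congrArg (fun x : sanov.range => (x.1 : Matrix (Fin 2) (Fin 2) ℤ)) hgh

end Sanov

/-- polynomial rings over any domain `A` with `GL_2 A` in `C` -/
theorem mvpoly_dom {C : ∀ (G : Type) [Group G], Prop} (hC : ClosedE C)
    (A : Type) [CommRing A] [IsDomain A] (hA : C (GL (Fin 2) A)) (I : Type) :
    C (GL (Fin 2) (MvPolynomial I A)) := by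
  rcases finite_or_infinite A with h | h
  · classical
    let _ : Fintype A := Fintype.ofFinite A
    let _ : Field A := Fintype.fieldOfDomain A
    have : Infinite (AlgebraicClosure A) := inferInstance
    exact of_ringHom hC (MvPolynomial.map (σ := I) (algebraMap A (AlgebraicClosure A)))
      (MvPolynomial.map_injective _ (algebraMap A (AlgebraicClosure A)).injective)
      (mvpoly hC (AlgebraicClosure A) (gl_alg hC A _) I)
  · exact mvpoly hC A hA I

end Pool.Agent.K9h35.GL
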