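import Pool.Agent.K9h35.GL.BT2
import Pool.Agent.N24.TR.Tree

/-!
# The criterion: groups of matrices of degree two over fields with a discrete valuation
-/

set_option autoImplicit false

namespace Pool.Agent.K9h35.GL

open WithZero
open Matrix hiding exp_neg exp_zsmul
open Pool.Agent.Y110.FJ Pool.Agent.N24.TR

theorem bound_mul {F : Type} [Field F] {v : Valuation F ℤᵐ⁰} {M N : Matrix (Fin 2) (Fin 2) F}
    {k l : ℤ} (hM : ∀ i j, v (M i j) ≤ exp k) (hN : ∀ i j, v (N i j) ≤ exp l) (i j : Fin 2) :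
    v ((M * N) i j) ≤ exp (k + l) := by
  rw [Matrix.mul_apply, Fin.sum_univ_two]
  refine v.map_add_le ?_ ?_
  · rw [map_mul, exp_add]; exact mul_le_mul' (hM _ _) (hN _ _)
  · rw [map_mul, exp_add]; exact mul_le_mul' (hM _ _) (hN _ _)

theorem exists_bound {F : Type} [Field F] (v : Valuation F ℤᵐ⁰) (M : Matrix (Fin 2) (Fin 2) F) :
    ∃ k : ℤ, ∀ i j, v (M i j) ≤ exp k := by
  have h : ∀ x : F, ∃ k : ℤ, v x ≤ exp k := by
    intro x
    by_cases hx : x = 0
    · exact ⟨0, by rw [hx, map_zero]; exact zero_le⟩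
    · obtain ⟨k, hk⟩ := val_exp (v := v) hx
      exact ⟨k, hk.le⟩
  choose f hf using h
  refine ⟨max (max (f (M 0 0)) (f (M 0 1))) (max (f (M 1 0)) (f (M 1 1))), fun i j => ?_⟩
  refine (hf (M i j)).trans (exp_le_exp.2 ?_)
  fin_cases i <;> fin_cases j <;> simp

/-- an element with determinant of value `1` which fixes a vertex has bounded entries -/
theorem stab_bound {F : Type} [Field F] (v : Valuation F ℤᵐ⁰) (g : GL (Fin 2) F) :
    ∃ c : ℤ, ∀ γ : GL (Fin 2) F, v (γ : Matrix (Fin 2) (Fin 2) F).det = 1 →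
      γ • (g : Vt v) = (g : Vt v) → ∀ j k, v ((γ : Matrix (Fin 2) (Fin 2) F) j k) ≤ exp c := by
  obtain ⟨a, ha⟩ := exists_bound v (g : Matrix (Fin 2) (Fin 2) F)
  obtain ⟨b, hb⟩ := exists_bound v ((g⁻¹ : GL (Fin 2) F) : Matrix (Fin 2) (Fin 2) F)
  refine ⟨a + b, fun γ hdet hγ => ?_⟩
  have h2 : g⁻¹ * (γ * g) ∈ HH v := by
    have h3 : ((γ * g : GL (Fin 2) F) : Vt v) = g := hγ
    exact QuotientGroup.eq.1 h3.symm
  obtain ⟨k, hk, hd⟩ := h2
  have hk0 : k = 0 := by
    have e2 : ((g⁻¹ * (γ * g) : GL (Fin 2) F) : Matrix (Fin 2) (Fin 2) F).det =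
        (γ : Matrix (Fin 2) (Fin 2) F).det := by
      rw [Units.val_mul, Units.val_mul, Matrix.det_mul, Matrix.det_mul]
      have e3 : ((g⁻¹ : GL (Fin 2) F) : Matrix (Fin 2) (Fin 2) F).det *
          (g : Matrix (Fin 2) (Fin 2) F).det = 1 := by
        rw [← Matrix.det_mul, ← Units.val_mul, inv_mul_cancel]
        simp
      linear_combination (γ : Matrix (Fin 2) (Fin 2) F).det * e3
    rw [e2, hdet] at hd
    have h8 : exp (0 : ℤ) = exp (2 * k + 0) := by rw [exp_zero]; exact hd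
    have := exp_injective h8
    omega
  subst hk0
  have e4 : (γ : Matrix (Fin 2) (Fin 2) F) =
      (g : Matrix (Fin 2) (Fin 2) F) * ((g⁻¹ * (γ * g) : GL (Fin 2) F) : Matrix (Fin 2) (Fin 2) F) *
        ((g⁻¹ : GL (Fin 2) F) : Matrix (Fin 2) (Fin 2) F) := by
    rw [← Units.val_mul, ← Units.val_mul]
    congr 1
    group
  intro j l
  have h9 := bound_mul (bound_mul ha hk) hb j l
  rw [← e4, add_zero] at h9
  exact h9

/-- **The criterion.** Let `Γ` be a group, `F` a field with a discrete valuation `v`, and let `ρ` be a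
homomorphism from `Γ` to `GL_2 F` such that all determinants have the value `1`. If for each `c` there
is a homomorphism from `Γ` to a group in `C` whose kernel contains no nontrivial element `γ` such that
the entries of `ρ γ` have values at most `exp c`, then `Γ` is in `C`. -/
theorem criterion {C : ∀ (G : Type) [Group G], Prop} (hC : ClosedE C)
    {F : Type} [Field F] (v : Valuation F ℤᵐ⁰) (π : F) (hπ : v π = exp (-1))
    {Γ : Type} [Group Γ] (ρ : Γ →* GL (Fin 2) F)
    (hdet : ∀ γ : Γ, v ((ρ γ : GL (Fin 2) F) : Matrix (Fin 2) (Fin 2) F).det = 1)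
    (h : ∀ c : ℤ, ∃ (P : Type) (_ : Group P) (f : Γ →* P), C P ∧
      ∀ γ : Γ, (∀ j k, v (((ρ γ : GL (Fin 2) F) : Matrix (Fin 2) (Fin 2) F) j k) ≤ exp c) →
        f γ = 1 → γ = 1) : C Γ := by
  let _ : MulAction Γ (Vt v) := MulAction.compHom _ ρ
  have hact : ∀ (γ : Γ) (x : Vt v), γ • x = ρ γ • x := fun _ _ => rfl
  refine tree_local (V := Vt v) (T := tree v) hC (tree_isTree hπ)
    (fun γ x y hxy => tree_act v _ x y hxy) fun x => ?_
  induction x using QuotientGroup.induction_on with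
  | H g =>
    obtain ⟨c, hc⟩ := stab_bound v g
    obtain ⟨P, hP, f, hCP, hf⟩ := h c
    exact ⟨P, hP, f, hCP, fun γ hγ h1 => hf γ (hc _ (hdet γ) hγ) h1⟩

theorem val_unit_det {F R : Type} [Field F] [CommRing R] (v : Valuation F ℤᵐ⁰) (i : R →+* F)
    (hR : ∀ r : R, r ≠ 0 → 1 ≤ v (i r)) (γ : GL (Fin 2) R) :
    v (((Matrix.GeneralLinearGroup.map i γ : GL (Fin 2) F) : Matrix (Fin 2) (Fin 2) F)).det = 1 := by
  have e1 : ∀ δ : GL (Fin 2) R, (((Matrix.GeneralLinearGroup.map i δ : GL (Fin 2) F) :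
    Matrix (Fin 2) (Fin 2) F)).det = i (δ.1.det) := by
    intro δ
    exact (RingHom.map_det i δ.1).symm
  have h4 : γ.1.det * (γ⁻¹).1.det = 1 := by
    rw [← Matrix.det_mul, ← Units.val_mul, mul_inv_cancel]
    simp
  have h5 : v (i γ.1.det) * v (i (γ⁻¹).1.det) = 1 := by
    rw [← map_mul, ← map_mul, h4, map_one, map_one]
  have hz : ∀ x y : R, x * y = 1 → x ≠ 0 := by
    intro x y hxy hx
    rw [hx, zero_mul] at hxy
    have : (0 : F) = 1 := by rw [← map_zero i, hxy, map_one]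
    exact zero_ne_one this
  have h6 := hR _ (hz _ _ h4)
  have h7 := hR _ (hz _ _ ((mul_comm _ _).trans h4))
  rw [e1]
  refine le_antisymm ?_ h6
  calc v (i γ.1.det) = v (i γ.1.det) * 1 := (mul_one _).symm
    _ ≤ v (i γ.1.det) * v (i (γ⁻¹).1.det) := mul_le_mul_right h7 _
    _ = 1 := h5

/-- The criterion for `GL_2` of a ring `R` in `F` which contains no elements of value less than `1`
except `0`. -/
theorem criterion_ring {C : ∀ (G : Type) [Group G], Prop} (hC : ClosedE C)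
    {F : Type} [Field F] (v : Valuation F ℤᵐ⁰) (π : F) (hπ : v π = exp (-1))
    {R : Type} [CommRing R] (i : R →+* F) (hR : ∀ r : R, r ≠ 0 → 1 ≤ v (i r))
    (h : ∀ c : ℤ, ∃ (P : Type) (_ : Group P) (f : GL (Fin 2) R →* P), C P ∧
      ∀ γ : GL (Fin 2) R, (∀ j k, v (i (γ.1 j k)) ≤ exp c) → f γ = 1 → γ = 1) :
    C (GL (Fin 2) R) :=
  criterion hC v π hπ (Matrix.GeneralLinearGroup.map i) (val_unit_det v i hR) h

/-- finitely many homomorphisms to groups in `C` can be combined -/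
theorem finite_family {C : ∀ (G : Type) [Group G], Prop} (hC : ClosedE C) {Γ α : Type} [Group Γ]
    (S : Finset α) (Q : α → Γ → Prop)
    (h : ∀ a ∈ S, ∃ (P : Type) (_ : Group P) (f : Γ →* P), C P ∧ ∀ γ : Γ, f γ = 1 → Q a γ) :
    ∃ (P : Type) (_ : Group P) (f : Γ →* P), C P ∧ ∀ γ : Γ, f γ = 1 → ∀ a ∈ S, Q a γ := by
  classical
  induction S using Finset.induction_on with
  | empty =>
    exact ⟨Multiplicative ℤ, inferInstance, 1, hC.base.int, fun γ _ a ha => absurd ha (by simp)⟩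
  | insert a S _ ih =>
    obtain ⟨P, _, f, hP, hf⟩ := ih fun b hb => h b (Finset.mem_insert_of_mem hb)
    obtain ⟨P', _, f', hP', hf'⟩ := h a (Finset.mem_insert_self a S)
    refine ⟨P × P', inferInstance, f.prod f', hC.base.prod _ _ hP hP', fun γ h1 b hb => ?_⟩
    have h2 : f γ = 1 := congrArg Prod.fst h1
    have h3 : f' γ = 1 := congrArg Prod.snd h1
    rcases Finset.mem_insert.1 hb with rfl | hb
    · exact hf' γ h3
    · exact hf γ h2 b hb

end Pool.Agent.K9h35.GL
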