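import Pool.Agent.K9h35.GL.Crit

/-!
# The criterion without a condition on the determinants
-/

set_option autoImplicit false

namespace Pool.Agent.K9h35.GL

open WithZero
open Matrix hiding exp_neg exp_zsmul
open Pool.Agent.Y110.FJ Pool.Agent.N24.TR

/-- the value of the determinant, as a homomorphism to an infinite cyclic group -/
noncomputable def detVal {F : Type} [Field F] (v : Valuation F ℤᵐ⁰) : GL (Fin 2) F →* Multiplicative ℤ :=
  ((WithZero.unitsWithZeroEquiv (α := Multiplicative ℤ)).toMonoidHom).comp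
    ((Units.map (v : F →* ℤᵐ⁰)).comp Matrix.GeneralLinearGroup.det)

theorem detVal_eq_one {F : Type} [Field F] (v : Valuation F ℤᵐ⁰) (g : GL (Fin 2) F)
    (h : detVal v g = 1) : v (g : Matrix (Fin 2) (Fin 2) F).det = 1 := by
  have h1 : (Units.map (v : F →* ℤᵐ⁰)) (Matrix.GeneralLinearGroup.det g) = 1 :=
    (WithZero.unitsWithZeroEquiv (α := Multiplicative ℤ)).injective (by rw [map_one]; exact h)
  exact congrArg Units.val h1

/-- **The criterion.** Let `Γ` be a group, `F` a field with a discrete valuation `v`, and let `ρ` be a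
homomorphism from `Γ` to `GL_2 F`. If for each `c` there is a homomorphism from `Γ` to a group in `C`
whose kernel contains no nontrivial element `γ` such that the entries of `ρ γ` have values at most
`exp c` and its determinant has the value `1`, then `Γ` is in `C`. -/
theorem criterion_det {C : ∀ (G : Type) [Group G], Prop} (hC : ClosedE C)
    {F : Type} [Field F] (v : Valuation F ℤᵐ⁰) (π : F) (hπ : v π = exp (-1))
    {Γ : Type} [Group Γ] (ρ : Γ →* GL (Fin 2) F)
    (h : ∀ c : ℤ, ∃ (P : Type) (_ : Group P) (f : Γ →* P), C P ∧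
      ∀ γ : Γ, v ((ρ γ : GL (Fin 2) F) : Matrix (Fin 2) (Fin 2) F).det = 1 →
        (∀ j k, v (((ρ γ : GL (Fin 2) F) : Matrix (Fin 2) (Fin 2) F) j k) ≤ exp c) →
        f γ = 1 → γ = 1) : C Γ := by
  let _ : MulAction Γ (Vt v) := MulAction.compHom _ ρ
  refine tree_local (V := Vt v) (T := tree v) hC (tree_isTree hπ)
    (fun γ x y hxy => tree_act v _ x y hxy) fun x => ?_
  induction x using QuotientGroup.induction_on with
  | H g =>
    obtain ⟨c, hc⟩ := stab_bound v g
    obtain ⟨P, hP, f, hCP, hf⟩ := h c
    refine ⟨P × Multiplicative ℤ, inferInstance, f.prod ((detVal v).comp ρ),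
      hC.base.prod _ _ hCP hC.base.int, fun γ hγ h1 => ?_⟩
    have h2 : f γ = 1 := congrArg Prod.fst h1
    have h3 : detVal v (ρ γ) = 1 := congrArg Prod.snd h1
    have h4 := detVal_eq_one v _ h3
    exact hf γ h4 (hc _ h4 hγ) h2

end Pool.Agent.K9h35.GL
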