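import Mathlib

/-!
# Trees given by a parent function
-/

set_option autoImplicit false

namespace Pool.Agent.K9h35.GL

open SimpleGraph

/-- A graph in which every vertex is joined exactly to its parent and to its children is a tree, if
the parent has smaller height and any two vertices have a common ancestor. -/
theorem isTree_of_parent {V : Type} [Nonempty V] (T : SimpleGraph V) (p : V → V) (ht : V → ℤ)
    (hadj : ∀ x y, T.Adj x y ↔ p x = y ∨ p y = x) (hht : ∀ x, ht (p x) = ht x - 1)
    (hcom : ∀ x y, ∃ m n : ℕ, p^[m] x = p^[n] y) : T.IsTree := by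
  classical
  have hanc : ∀ (m : ℕ) (x : V), T.Reachable x (p^[m] x) := by
    intro m
    induction m with
    | zero => intro x; exact Reachable.refl _
    | succ m ih =>
      intro x
      rw [Function.iterate_succ_apply]
      exact (Adj.reachable ((hadj x (p x)).2 (Or.inl rfl))).trans (ih (p x))
  refine ⟨⟨fun x y => ?_⟩, fun v c hc => ?_⟩
  · obtain ⟨m, n, h⟩ := hcom x y
    exact (hanc m x).trans (h ▸ (hanc n y).symm)
  · -- a vertex of maximal height on the cycle
    obtain ⟨u, hu, hmax⟩ : ∃ u ∈ c.support, ∀ w ∈ c.support, ht w ≤ ht u := by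
      have h1 : c.support.toFinset.Nonempty := ⟨v, by simp⟩
      obtain ⟨u, hu, h2⟩ := Finset.exists_max_image _ ht h1
      exact ⟨u, by simpa using hu, fun w hw => h2 w (by simpa using hw)⟩
    have hc' := hc.rotate hu
    have hmax' : ∀ w ∈ (c.rotate u hu).support, ht w ≤ ht u := by
      intro w hw
      apply hmax
      have := (c.mem_support_rotate_iff u hu).1 hw
      exact this
    have key : ∀ w, T.Adj u w → w ∈ (c.rotate u hu).support → w = p u := by
      intro w hw hs
      rcases (hadj u w).1 hw with h | h
      · exact h.symm
      · have h1 := hht w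
        rw [h] at h1
        have h2 := hmax' w hs
        omega
    have h1 := key _ ((c.rotate u hu).adj_snd hc'.not_nil) (Walk.getVert_mem_support _ _)
    have h2 := key _ ((c.rotate u hu).adj_penultimate hc'.not_nil).symm (Walk.getVert_mem_support _ _)
    exact hc'.snd_ne_penultimate (h1.trans h2.symm)

end Pool.Agent.K9h35.GL
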