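import Pool.Agent.K9h35.GL.Crit2
import Mathlib.FieldTheory.RatFunc.Valuation
import Mathlib.FieldTheory.IsAlgClosed.AlgebraicClosure

/-!
# `GL_2` of polynomial rings
-/

set_option autoImplicit false

namespace Pool.Agent.K9h35.GL

open WithZero Polynomial
open Matrix hiding exp_neg exp_zsmul
open Pool.Agent.Y110.FJ Pool.Agent.N24.TR

/-- **Rings.** Let `R` be a subring of a field `F` with a discrete valuation `v` such that all nonzero
elements of `R` have values at least `1`. Suppose that for each `c` there are finitely many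
homomorphisms from `R` to rings `A` with `GL_2 A` in `C` such that no nonzero element of `R` of value
at most `exp c` is mapped to `0` by all of them. Then `GL_2 R` is in `C`. -/
theorem ring_step {C : ∀ (G : Type) [Group G], Prop} (hC : ClosedE C)
    {F : Type} [Field F] (v : Valuation F ℤᵐ⁰) (π : F) (hπ : v π = exp (-1))
    {R : Type} [CommRing R] (i : R →+* F) (hR : ∀ r : R, r ≠ 0 → 1 ≤ v (i r))
    (h : ∀ c : ℤ, ∃ (n : ℕ) (A : Fin n → Type) (_ : ∀ j, CommRing (A j)) (f : ∀ j, R →+* A j),
      (∀ j, C (GL (Fin 2) (A j))) ∧ ∀ r : R, v (i r) ≤ exp c → (∀ j, f j r = 0) → r = 0) :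
    C (GL (Fin 2) R) := by
  classical
  refine criterion_ring hC v π hπ i hR fun c => ?_
  obtain ⟨n, A, _, f, hA, hf⟩ := h (max c 0)
  obtain ⟨P, _, g, hP, hg⟩ := finite_family hC (Finset.univ : Finset (Fin n))
    (fun a (γ : GL (Fin 2) R) => ∀ j k, f a (γ.1 j k) = (1 : Matrix (Fin 2) (Fin 2) (A a)) j k)
    fun a _ => ⟨GL (Fin 2) (A a), inferInstance, Matrix.GeneralLinearGroup.map (f a), hA a,
      fun γ hγ j k => congrArg (fun g : GL (Fin 2) (A a) => g.1 j k) hγ⟩
  refine ⟨P, inferInstance, g, hP, fun γ hγ h1 => ?_⟩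
  have h2 := hg γ h1
  have h0 : exp (0 : ℤ) ≤ exp (max c 0) := exp_le_exp.2 (le_max_right _ _)
  have hone : ∀ j k : Fin 2, v (i ((1 : Matrix (Fin 2) (Fin 2) R) j k)) ≤ exp (max c 0) ∧
      ∀ a : Fin n, f a ((1 : Matrix (Fin 2) (Fin 2) R) j k) = (1 : Matrix (Fin 2) (Fin 2) (A a)) j k := by
    intro j k
    by_cases hjk : j = k
    · subst hjk
      simp only [Matrix.one_apply_eq, map_one, implies_true, and_true]
      simpa using h0
    · simp only [Matrix.one_apply_ne hjk, map_zero, implies_true, and_true]
      exact zero_le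
  refine Units.ext (Matrix.ext fun j k => ?_)
  refine sub_eq_zero.1 (hf _ ?_ fun a => ?_)
  · rw [map_sub]
    refine (v.map_sub _ _).trans (max_le ((hγ j k).trans (exp_le_exp.2 (le_max_left _ _))) (hone j k).1)
  · rw [map_sub]
    rw [h2 a (Finset.mem_univ _) j k]
    exact sub_eq_zero.2 ((hone j k).2 a).symm

/-- a polynomial ring in one variable over an infinite domain `A` with `GL_2 A` in `C` -/
theorem poly_step {C : ∀ (G : Type) [Group G], Prop} (hC : ClosedE C)
    (A : Type) [CommRing A] [IsDomain A] [Infinite A] (hA : C (GL (Fin 2) A)) :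
    C (GL (Fin 2) A[X]) := by
  classical
  let K := FractionRing A
  let i : A[X] →+* RatFunc K := (algebraMap K[X] (RatFunc K)).comp (Polynomial.mapRingHom (algebraMap A K))
  have hinj : Function.Injective (algebraMap A K) := IsFractionRing.injective A K
  have hv : ∀ r : A[X], r ≠ 0 → RatFunc.inftyValuation K (i r) = exp (r.natDegree : ℤ) := by
    intro r hr
    have h1 : (Polynomial.mapRingHom (algebraMap A K)) r ≠ 0 := by
      rw [Polynomial.coe_mapRingHom]
      exact (Polynomial.map_ne_zero_iff hinj).2 hr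
    have h2 := RatFunc.inftyValuation.polynomial (F := K) h1
    have h3 : ((Polynomial.mapRingHom (algebraMap A K)) r).natDegree = r.natDegree := by
      rw [Polynomial.coe_mapRingHom]
      exact Polynomial.natDegree_map_eq_of_injective hinj r
    rw [h3] at h2
    exact h2
  refine ring_step hC (RatFunc.inftyValuation K) (1 / RatFunc.X) (RatFunc.inftyValuation.X_inv (F := K)) i
    (fun r hr => ?_) fun c => ?_
  · rw [hv r hr, ← exp_zero]
    exact exp_le_exp.2 (by positivity)
  · refine ⟨c.toNat + 1, fun _ => A, fun _ => inferInstance,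
      fun j => Polynomial.evalRingHom (Infinite.natEmbedding A j), fun _ => hA, fun r hr h1 => ?_⟩
    by_contra h0
    refine h0 (Polynomial.eq_zero_of_natDegree_lt_card_of_eval_eq_zero r
      (f := fun j : Fin (c.toNat + 1) => Infinite.natEmbedding A j)
      (fun a b hab => Fin.ext ((Infinite.natEmbedding A).injective hab)) h1 ?_)
    rw [Fintype.card_fin]
    rw [hv _ h0] at hr
    have h4 : (r.natDegree : ℤ) ≤ c := exp_le_exp.1 hr
    omega

theorem map_inj {R S : Type} [CommRing R] [CommRing S] (e : R →+* S)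
    (he : Function.Injective e) :
    Function.Injective (Matrix.GeneralLinearGroup.map (n := Fin 2) e) := by
  intro a b hab
  refine Units.ext (Matrix.ext fun j k => he ?_)
  exact congrArg (fun g : GL (Fin 2) S => g.1 j k) hab

theorem of_ringHom {C : ∀ (G : Type) [Group G], Prop} (hC : ClosedE C)
    {R S : Type} [CommRing R] [CommRing S] (e : R →+* S) (he : Function.Injective e)
    (hS : C (GL (Fin 2) S)) : C (GL (Fin 2) R) :=
  hC.base.of_injective _ _ (Matrix.GeneralLinearGroup.map (n := Fin 2) e) (map_inj _ he) hS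

/-- finitely many variables -/
theorem mvpoly_fin {C : ∀ (G : Type) [Group G], Prop} (hC : ClosedE C)
    (A : Type) [CommRing A] [IsDomain A] [Infinite A] (hA : C (GL (Fin 2) A)) (n : ℕ) :
    C (GL (Fin 2) (MvPolynomial (Fin n) A)) := by
  induction n with
  | zero =>
    exact of_ringHom hC (MvPolynomial.isEmptyAlgEquiv A (Fin 0) : MvPolynomial (Fin 0) A →+* A)
      (MvPolynomial.isEmptyAlgEquiv A (Fin 0)).injective hA
  | succ n ih =>
    have : Infinite (MvPolynomial (Fin n) A) :=
      Infinite.of_injective _ (MvPolynomial.C_injective (Fin n) A)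
    exact of_ringHom hC
      (MvPolynomial.finSuccEquiv A n : MvPolynomial (Fin (n + 1)) A →+* (MvPolynomial (Fin n) A)[X])
      (MvPolynomial.finSuccEquiv A n).injective (poly_step hC _ ih)

/-- `GL_2` of a ring all of whose finite subsets are contained in subrings `S` with `GL_2 S` in `C`,
for a directed family of subrings -/
theorem union_step {C : ∀ (G : Type) [Group G], Prop} (hC : ClosedE C)
    {R : Type} [CommRing R] (I : Type) [Preorder I] [Nonempty I] (hI : ∀ i j : I, ∃ k, i ≤ k ∧ j ≤ k)
    (S : I → Subring R) (hS : Monotone S) (hg : ∀ r : R, ∃ i, r ∈ S i)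
    (hc : ∀ i, C (GL (Fin 2) (S i))) : C (GL (Fin 2) R) := by
  refine Pool.Agent.Y430.SS.of_directed hC.base _ I hI
    (fun i => (Matrix.GeneralLinearGroup.map (n := Fin 2) (S i).subtype).range) ?_ ?_ ?_
  · rintro i j hij _ ⟨g, rfl⟩
    refine ⟨Matrix.GeneralLinearGroup.map (Subring.inclusion (hS hij)) g, ?_⟩
    rfl
  · intro g
    have hdir : ∀ T : Finset R, ∃ i, ∀ r ∈ T, r ∈ S i := by
      classical
      intro T
      induction T using Finset.induction_on with
      | empty => exact ⟨Classical.arbitrary I, by simp⟩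
      | insert a T _ ih =>
        obtain ⟨i, hi⟩ := ih
        obtain ⟨j, hj⟩ := hg a
        obtain ⟨k, h1, h2⟩ := hI i j
        refine ⟨k, fun r hr => ?_⟩
        rcases Finset.mem_insert.1 hr with rfl | hr
        · exact hS h2 hj
        · exact hS h1 (hi r hr)
    classical
    obtain ⟨i, hi⟩ := hdir (Finset.univ.image (fun p : Fin 2 × Fin 2 => g.1 p.1 p.2) ∪
      Finset.univ.image (fun p : Fin 2 × Fin 2 => g⁻¹.1 p.1 p.2))
    have h1 : ∀ j k, g.1 j k ∈ S i := fun j k => hi _ (by
      rw [Finset.mem_union]; left; exact Finset.mem_image.2 ⟨(j, k), Finset.mem_univ _, rfl⟩)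
    have h2 : ∀ j k, g⁻¹.1 j k ∈ S i := fun j k => hi _ (by
      rw [Finset.mem_union]; right; exact Finset.mem_image.2 ⟨(j, k), Finset.mem_univ _, rfl⟩)
    have hsub : ∀ M N : Matrix (Fin 2) (Fin 2) (S i),
        (M.map (S i).subtype) = (N.map (S i).subtype) → M = N := by
      intro M N h
      ext j k
      exact congrArg (fun Q : Matrix (Fin 2) (Fin 2) R => Q j k) h
    refine ⟨i, ⟨⟨Matrix.of fun j k => ⟨g.1 j k, h1 j k⟩, Matrix.of fun j k => ⟨g⁻¹.1 j k, h2 j k⟩, ?_, ?_⟩, ?_⟩⟩
    · refine hsub _ _ ?_
      rw [Matrix.map_mul, Matrix.map_one _ (map_zero _) (map_one _)]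
      exact g.mul_inv
    · refine hsub _ _ ?_
      rw [Matrix.map_mul, Matrix.map_one _ (map_zero _) (map_one _)]
      exact g.inv_mul
    · exact Units.ext rfl
  · intro i
    have e := MonoidHom.ofInjective (f := Matrix.GeneralLinearGroup.map (n := Fin 2) (S i).subtype)
      (map_inj _ Subtype.val_injective)
    exact hC.base.of_injective _ _ e.symm.toMonoidHom e.symm.injective (hc i)

/-- any number of variables -/
theorem mvpoly {C : ∀ (G : Type) [Group G], Prop} (hC : ClosedE C)
    (A : Type) [CommRing A] [IsDomain A] [Infinite A] (hA : C (GL (Fin 2) A)) (I : Type) :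
    C (GL (Fin 2) (MvPolynomial I A)) := by
  classical
  refine union_step hC (Finset I) (fun i j => ⟨i ∪ j, Finset.subset_union_left, Finset.subset_union_right⟩)
    (fun s => (MvPolynomial.supported A (s : Set I)).toSubring)
    (fun s t h => MvPolynomial.supported_mono (by exact_mod_cast h)) (fun r => ⟨r.vars, ?_⟩) fun s => ?_
  · exact MvPolynomial.mem_supported_vars r
  · let e := MvPolynomial.supportedEquivMvPolynomial (R := A) (s : Set I)
    let e' := MvPolynomial.renameEquiv A (Fintype.equivFin (s : Set I))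
    let f : ↥(MvPolynomial.supported A (s : Set I)).toSubring →+*
        MvPolynomial (Fin (Fintype.card (s : Set I))) A :=
      (e'.toRingEquiv.toRingHom).comp e.toRingEquiv.toRingHom
    exact of_ringHom hC f (e'.injective.comp e.injective)
      (mvpoly_fin hC A hA (Fintype.card (s : Set I)))

end Pool.Agent.K9h35.GL
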