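import Pool.Agent.K9h35.GL.Coef
import Mathlib.RingTheory.Nullstellensatz
import Mathlib.RingTheory.Jacobson.Ring

/-!
# Coordinate rings of affine varieties with irreducible boundary at infinity
-/

set_option autoImplicit false

namespace Pool.Agent.K9h35.GL

open WithZero
open Pool.Agent.Y110.FJ

/-- a nonzero function on an affine variety does not vanish at some point -/
theorem exists_point (k R : Type) [Field k] [IsAlgClosed k] [CommRing R] [IsDomain R] [Algebra k R]
    [Algebra.FiniteType k R] (r : R) (hr : r ≠ 0) : ∃ φ : R →ₐ[k] k, φ r ≠ 0 := by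
  have hJ : IsJacobsonRing R := isJacobsonRing_of_finiteType (A := k)
  have h1 : (⊥ : Ideal R).jacobson = ⊥ := hJ.out (Ideal.isRadical_iff_quotient_reduced _ |>.2 (by
    have : IsDomain (R ⧸ (⊥ : Ideal R)) := Ideal.Quotient.isDomain _
    infer_instance))
  have h2 : r ∉ (⊥ : Ideal R).jacobson := by rw [h1]; simpa using hr
  rw [Ideal.jacobson, Submodule.mem_sInf] at h2
  push Not at h2
  obtain ⟨m, ⟨-, hm⟩, hrm⟩ := h2
  let _ : Field (R ⧸ m) := Ideal.Quotient.field m
  have hfin : Module.Finite k (R ⧸ m) := finite_of_finite_type_of_isJacobsonRing k (R ⧸ m)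
  have hb : Function.Bijective (algebraMap k (R ⧸ m)) :=
    IsAlgClosed.algebraMap_bijective_of_isIntegral
  let e : k ≃ₐ[k] (R ⧸ m) := AlgEquiv.ofBijective (Algebra.ofId k (R ⧸ m)) hb
  refine ⟨(e.symm : (R ⧸ m) →ₐ[k] k).comp (Ideal.Quotient.mkₐ k m), fun h => hrm ?_⟩
  have h3 : e.symm (Ideal.Quotient.mkₐ k m r) = 0 := h
  have h4 : Ideal.Quotient.mkₐ k m r = 0 := e.symm.injective (by rw [h3, map_zero])
  exact Ideal.Quotient.eq_zero_iff_mem.1 h4

/-- finitely many points detect a finite-dimensional space of functions -/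
theorem exists_points (k R : Type) [Field k] [IsAlgClosed k] [CommRing R] [IsDomain R] [Algebra k R]
    [Algebra.FiniteType k R] (d : ℕ) : ∀ W : Submodule k R, FiniteDimensional k W →
      Module.finrank k W ≤ d → ∃ (n : ℕ) (φ : Fin n → (R →ₐ[k] k)), ∀ r ∈ W, (∀ j, φ j r = 0) → r = 0 := by
  induction d with
  | zero =>
    intro W _ hW
    refine ⟨0, fun j => j.elim0, fun r hr _ => ?_⟩
    have : W = ⊥ := Submodule.finrank_eq_zero.1 (Nat.le_zero.1 hW)
    rw [this] at hr
    simpa using hr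
  | succ d ih =>
    intro W hfin hW
    by_cases h0 : ∀ r ∈ W, r = 0
    · exact ⟨0, fun j => j.elim0, fun r hr _ => h0 r hr⟩
    · push Not at h0
      obtain ⟨r, hr, hr0⟩ := h0
      obtain ⟨φ, hφ⟩ := exists_point k R r hr0
      let W' := W ⊓ LinearMap.ker φ.toLinearMap
      have hlt : W' < W := by
        refine lt_of_le_of_ne inf_le_left fun h => hφ ?_
        have h1 : r ∈ W' := by rw [h]; exact hr
        exact h1.2
      have hfin' : FiniteDimensional k W' := Submodule.finiteDimensional_of_le inf_le_left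
      obtain ⟨n, ψ, hψ⟩ := ih W' hfin' (by
        have := Submodule.finrank_lt_finrank_of_lt hlt
        omega)
      refine ⟨n + 1, Fin.cons φ ψ, fun s hs h1 => hψ s ⟨hs, ?_⟩ fun j => ?_⟩
      · exact h1 0
      · exact h1 j.succ

/-- **Varieties with irreducible boundary.** -/
theorem variety {C : ∀ (G : Type) [Group G], Prop} (hC : ClosedE C)
    {F : Type} [Field F] (v : Valuation F ℤᵐ⁰) (π : F) (hπ : v π = exp (-1))
    (k R : Type) [Field k] [IsAlgClosed k] [CommRing R] [IsDomain R] [Algebra k R]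
    [Algebra.FiniteType k R] (i : R →+* F) (hR : ∀ r : R, r ≠ 0 → 1 ≤ v (i r))
    (hfin : ∀ c : ℤ, ∃ W : Submodule k R, FiniteDimensional k W ∧ ∀ r : R, v (i r) ≤ exp c → r ∈ W)
    (hk : C (GL (Fin 2) k)) : C (GL (Fin 2) R) := by
  refine ring_step hC v π hπ i hR fun c => ?_
  obtain ⟨W, hW, hrW⟩ := hfin c
  obtain ⟨n, φ, hφ⟩ := exists_points k R _ W hW le_rfl
  exact ⟨n, fun _ => k, fun _ => inferInstance, fun j => (φ j : R →+* k), fun _ => hk,
    fun r hr h => hφ r (hrW r hr) h⟩

end Pool.Agent.K9h35.GL
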